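import Pool.Agent.W448.FF.Stmts

/-! The best partition is locally optimal (task LOC of the project FF). -/

set_option autoImplicit false
set_option linter.unusedSectionVars false

namespace Pool.Agent.W978.FF

open Finset Pool.Agent.W448.FF

section

variable {V : Type} (G : OG V)

theorem nn_symm (u v : V) : nn G u v = nn G v u := by
  classical
  unfold nn
  by_cases h : G.adj u v
  · rw [if_pos h, if_pos (show G.adj v u from Or.symm h)]
  · rw [if_neg h, if_neg (fun h' : G.adj v u => h (Or.symm h'))]

theorem nn_self (v : V) : nn G v v = 1 := by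
  classical
  unfold nn
  rw [if_neg]
  rintro (h | h) <;> exact G.asymm v v h h

theorem nn_nonneg (u v : V) : 0 ≤ nn G u v := by
  classical
  unfold nn
  split_ifs <;> norm_num

theorem nn_le_one (u v : V) : nn G u v ≤ 1 := by
  classical
  unfold nn
  split_ifs <;> norm_num

variable [Fintype V] (w : V → ℝ)

/-- the defect of the ordered pair -/
noncomputable def df (p : V → Fin 3) (u z : V) : ℝ :=
  if p z = p u then 1 - nn G u z else nn G u z

theorem df_symm (p : V → Fin 3) (u z : V) : df G p u z = df G p z u := by
  unfold df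
  rw [nn_symm G u z]
  by_cases h : p z = p u
  · rw [if_pos h, if_pos h.symm]
  · rw [if_neg h, if_neg (fun h' => h h'.symm)]

theorem df_self (p : V → Fin 3) (v : V) : df G p v v = 0 := by
  unfold df
  rw [if_pos rfl, nn_self, sub_self]

theorem D_eq (p : V → Fin 3) (v : V) : D G w p v = ∑ u, w u * df G p v u := by
  unfold D ein mcr df
  rw [← sum_add_distrib]
  refine sum_congr rfl fun u _ => ?_
  by_cases h : p u = p v
  · rw [if_pos h, if_pos h, if_pos h, add_zero]
  · rw [if_neg h, if_neg h, if_neg h, zero_add]

theorem T_eq (p : V → Fin 3) (v : V) (j : Fin 3) : P w p j + Hh G w v - 2 * nj G w p v j =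
    ∑ u, w u * (if p u = j then 1 - nn G v u else nn G v u) := by
  unfold P Hh nj
  rw [mul_sum, ← sum_add_distrib, ← sum_sub_distrib]
  refine sum_congr rfl fun u _ => ?_
  by_cases h : p u = j
  · rw [if_pos h, if_pos h, if_pos h]; ring
  · rw [if_neg h, if_neg h, if_neg h]; ring

open Classical in
/-- the part of the total defect not involving `v` -/
theorem Dl_eq (p : V → Fin 3) (v : V) : Dl G w p = 2 * w v * D G w p v +
    ∑ u ∈ univ.erase v, w u * ∑ z ∈ univ.erase v, w z * df G p u z := by
  have hD : ∀ u, D G w p u = w v * df G p u v + ∑ z ∈ univ.erase v, w z * df G p u z := by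
    intro u
    rw [D_eq]
    exact (add_sum_erase univ (fun z => w z * df G p u z) (mem_univ v)).symm
  have hDv : D G w p v = ∑ z ∈ univ.erase v, w z * df G p v z := by
    rw [hD v, df_self, mul_zero, zero_add]
  have h1 : Dl G w p = w v * D G w p v + ∑ u ∈ univ.erase v, w u * D G w p u :=
    (add_sum_erase univ (fun u => w u * D G w p u) (mem_univ v)).symm
  have h2 : ∑ u ∈ univ.erase v, w u * D G w p u = w v * D G w p v +
      ∑ u ∈ univ.erase v, w u * ∑ z ∈ univ.erase v, w z * df G p u z := by
    rw [hDv, mul_sum, ← sum_add_distrib]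
    refine sum_congr rfl fun u _ => ?_
    rw [hD u, df_symm G p u v]
    ring
  rw [h1, h2]
  ring

end

theorem loc : S_LOC := by
  classical
  intro V _ G w hw
  obtain ⟨p, hp⟩ := Finite.exists_min (fun p : V → Fin 3 => Dl G w p)
  refine ⟨p, hp, fun v j => ?_⟩
  rw [T_eq]
  by_cases hj : p v = j
  · subst hj
    rw [D_eq]
    exact le_rfl
  · set q : V → Fin 3 := Function.update p v j with hq
    have h1 := hp q
    have hqv : q v = j := by rw [hq, Function.update_self]
    have hqu : ∀ u, u ≠ v → q u = p u := fun u hu => by rw [hq, Function.update_of_ne hu]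
    have hR : ∑ u ∈ univ.erase v, w u * ∑ z ∈ univ.erase v, w z * df G q u z =
        ∑ u ∈ univ.erase v, w u * ∑ z ∈ univ.erase v, w z * df G p u z := by
      refine sum_congr rfl fun u hu => ?_
      congr 1
      refine sum_congr rfl fun z hz => ?_
      unfold df
      rw [hqu u (ne_of_mem_erase hu), hqu z (ne_of_mem_erase hz)]
    rw [Dl_eq G w p v, Dl_eq G w q v, hR] at h1
    have hwv := hw.1 v
    have h2 : D G w p v ≤ D G w q v := by
      have h3 : 2 * w v * D G w p v ≤ 2 * w v * D G w q v := by linarith
      exact le_of_mul_le_mul_left h3 (by positivity)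
    refine h2.trans ?_
    rw [D_eq]
    refine sum_le_sum fun u _ => ?_
    refine mul_le_mul_of_nonneg_left ?_ (hw.1 u).le
    by_cases hu : u = v
    · subst hu
      rw [df_self]
      rw [if_neg hj]
      exact nn_nonneg G u u
    · unfold df
      rw [hqv, hqu u hu]

end Pool.Agent.W978.FF
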